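import Pool.Agent.Helper3.WT.Defs

/-! Project WT, piece B5: `rp_A`. -/

set_option autoImplicit false

namespace Pool.Agent.Helper90.WT

open Finset
open Pool.Agent.Helper48.ET
open Pool.Agent.Helper3.WT

theorem W_mono (σ : Sys) {k l : ℕ} (h : k ≤ l) : σ.W k ≤ σ.W l := by
  unfold Sys.W
  refine Finset.prod_le_prod_of_subset_of_one_le' (Finset.range_mono h) ?_
  intro j _ _
  have h1 := (σ.comp j).lt_p
  have : 0 < 2 * σ.p j := by omega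
  exact Nat.one_le_pow _ _ this

/-- the pairs of sum `n` in `X × Y` form a finite set -/
theorem fin_pairs (X Y : Set ℕ) (n : ℕ) :
    {q : ℕ × ℕ | q.1 ∈ X ∧ q.2 ∈ Y ∧ q.1 + q.2 = n}.Finite := by
  refine Set.Finite.subset (Set.finite_Iic ((n, n) : ℕ × ℕ)) ?_
  rintro ⟨a, b⟩ ⟨_, _, h⟩
  simp only [Set.mem_Iic, Prod.mk_le_mk]
  simp only at h
  omega

/-- WT-B5 -/
theorem rp_A (σ : Sys)
    (part_ge : ∀ {k N : ℕ}, 2 ≤ N → N ≤ σ.M k → ∀ a ∈ σ.Part k N,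
      σ.W k * (2 * σ.p k) ^ (2 * (N - 1)) ≤ a)
    (rp_part_part : ∀ {k k' N N' : ℕ}, (k' < k ∨ (k' = k ∧ N' ≤ N)) → 2 ≤ N →
      N ≤ σ.M k → 2 ≤ N' → N' ≤ σ.M k' → ∀ n : ℕ,
      rp (σ.Part k N) (σ.Part k' N') n ≤ ∏ j ∈ range (k + 1), σ.G j)
    (type_unique : ∀ {k k' N N' l l' O O' : ℕ}, (k' < k ∨ (k' = k ∧ N' ≤ N)) → 2 ≤ N →
      N ≤ σ.M k → 2 ≤ N' → N' ≤ σ.M k' →
      (l' < l ∨ (l' = l ∧ O' ≤ O)) → 2 ≤ O →
      O ≤ σ.M l → 2 ≤ O' → O' ≤ σ.M l' →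
      ∀ {a b a2 b2 : ℕ}, a ∈ σ.Part k N → b ∈ σ.Part k' N' → a2 ∈ σ.Part l O →
      b2 ∈ σ.Part l' O' → a + b = a2 + b2 → k = l ∧ N = O ∧ k' = l' ∧ N' = O')
    {K n : ℕ} (hn : n < σ.W (K + 1)) :
    rp σ.A σ.A n ≤ 2 * ∏ j ∈ range (K + 1), σ.G j := by
  classical
  set P : Set (ℕ × ℕ) := {q | (∃ k N k' N', (k' < k ∨ (k' = k ∧ N' ≤ N)) ∧ 2 ≤ N ∧ N ≤ σ.M k ∧
    2 ≤ N' ∧ N' ≤ σ.M k' ∧ q.1 ∈ σ.Part k N ∧ q.2 ∈ σ.Part k' N') ∧ q.1 + q.2 = n} with hP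
  have hPA : P ⊆ {q : ℕ × ℕ | q.1 ∈ σ.A ∧ q.2 ∈ σ.A ∧ q.1 + q.2 = n} := by
    rintro ⟨a, b⟩ ⟨⟨k, N, k', N', _, h2, hN, h2', hN', ha, hb⟩, hs⟩
    exact ⟨⟨k, N, h2, hN, ha⟩, ⟨k', N', h2', hN', hb⟩, hs⟩
  have hfin : {q : ℕ × ℕ | q.1 ∈ σ.A ∧ q.2 ∈ σ.A ∧ q.1 + q.2 = n}.Finite := fin_pairs _ _ _
  have hPfin : P.Finite := hfin.subset hPA
  -- the bound for `P`
  have hG : ∀ j, 1 ≤ σ.G j := fun j => (σ.comp j).G_pos
  have hPcard : P.ncard ≤ ∏ j ∈ range (K + 1), σ.G j := by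
    rcases Set.eq_empty_or_nonempty P with he | ⟨⟨a0, b0⟩, ⟨k, N, k', N', hkN, h2, hN, h2', hN',
      ha0, hb0⟩, hs0⟩
    · rw [he, Set.ncard_empty]; exact Nat.zero_le _
    · simp only at ha0 hb0 hs0
      have hsub : P ⊆ {q : ℕ × ℕ | q.1 ∈ σ.Part k N ∧ q.2 ∈ σ.Part k' N' ∧ q.1 + q.2 = n} := by
        rintro ⟨a, b⟩ ⟨⟨l, O, l', O', hlO, h3, hO, h3', hO', ha, hb⟩, hs⟩
        simp only at ha hb hs
        obtain ⟨e1, e2, e3, e4⟩ := type_unique hkN h2 hN h2' hN' hlO h3 hO h3' hO' ha0 hb0 ha hb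
          (hs0.trans hs.symm)
        subst e1 e2 e3 e4
        exact ⟨ha, hb, hs⟩
      have hk : k < K + 1 := by
        by_contra hcon
        have h1 := part_ge h2 hN a0 ha0
        have h2W := W_mono σ (not_lt.1 hcon)
        have hp := (σ.comp k).lt_p
        have h3 : 1 ≤ (2 * σ.p k) ^ (2 * (N - 1)) := Nat.one_le_pow _ _ (by omega)
        have h4 : σ.W k ≤ σ.W k * (2 * σ.p k) ^ (2 * (N - 1)) := Nat.le_mul_of_pos_right _ h3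
        omega
      calc P.ncard ≤ rp (σ.Part k N) (σ.Part k' N') n :=
            Set.ncard_le_ncard hsub (fin_pairs _ _ _)
        _ ≤ ∏ j ∈ range (k + 1), σ.G j := rp_part_part hkN h2 hN h2' hN' n
        _ ≤ ∏ j ∈ range (K + 1), σ.G j :=
            Finset.prod_le_prod_of_subset_of_one_le' (Finset.range_mono (by omega))
              (fun j _ _ => hG j)
  -- splitting
  have hsplit : {q : ℕ × ℕ | q.1 ∈ σ.A ∧ q.2 ∈ σ.A ∧ q.1 + q.2 = n} ⊆ P ∪ Prod.swap '' P := by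
    rintro ⟨a, b⟩ ⟨⟨k, N, h2, hN, ha⟩, ⟨k', N', h2', hN', hb⟩, hs⟩
    simp only at ha hb hs
    by_cases hc : k' < k ∨ (k' = k ∧ N' ≤ N)
    · exact Or.inl ⟨⟨k, N, k', N', hc, h2, hN, h2', hN', ha, hb⟩, hs⟩
    · right
      refine ⟨(b, a), ⟨⟨k', N', k, N, ?_, h2', hN', h2, hN, hb, ha⟩, ?_⟩, rfl⟩
      · rcases lt_trichotomy k k' with h | h | h
        · exact Or.inl h
        · refine Or.inr ⟨h, ?_⟩
          by_contra hc2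
          exact hc (Or.inr ⟨h.symm, by omega⟩)
        · exact absurd (Or.inl h) hc
      · simp only; omega
  calc rp σ.A σ.A n ≤ (P ∪ Prod.swap '' P).ncard :=
        Set.ncard_le_ncard hsplit (hPfin.union (hPfin.image _))
    _ ≤ P.ncard + (Prod.swap '' P).ncard := Set.ncard_union_le _ _
    _ ≤ P.ncard + P.ncard := by
        have := Set.ncard_image_le (f := Prod.swap) hPfin
        omega
    _ ≤ 2 * ∏ j ∈ range (K + 1), σ.G j := by omega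

end Pool.Agent.Helper90.WT
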